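import Mathlib

set_option autoImplicit false

open MeasureTheory Filter Topology
open scoped ContDiff ENNReal NNReal

namespace Pool.Agent.R217.BN

/-- Euclidean space. -/
abbrev E (n : ℕ) : Type := EuclideanSpace ℝ (Fin n)

/-- The critical exponent `2n/(n-2)`. -/
noncomputable def cexp (n : ℕ) : ℝ := 2 * (n : ℝ) / ((n : ℝ) - 2)

/-- `u ∈ H_0^1(Θ)` with gradient `G`: the closure of the smooth functions with compact support in
`Θ`. -/
def H01 {n : ℕ} (Θ : Set (E n)) (u : E n → ℝ) (G : E n → E n) : Prop :=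
  MemLp u 2 volume ∧ MemLp G 2 volume ∧
    ∃ φ : ℕ → E n → ℝ,
      (∀ k, ContDiff ℝ ∞ (φ k) ∧ HasCompactSupport (φ k) ∧ tsupport (φ k) ⊆ Θ) ∧
      Tendsto (fun k => eLpNorm (fun x => φ k x - u x) 2 volume) atTop (𝓝 0) ∧
      Tendsto (fun k => eLpNorm (fun x => gradient (φ k) x - G x) 2 volume) atTop (𝓝 0)

/-- The functional `J_lam`. -/
noncomputable def J {n : ℕ} (Θ : Set (E n)) (a b c : E n → ℝ) (lam : ℝ) (u : E n → ℝ)
    (G : E n → E n) : ℝ :=
  1 / 2 * (∫ x in Θ, a x * ‖G x‖ ^ 2) - lam / 2 * (∫ x in Θ, b x * u x ^ 2) -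
    1 / cexp n * ∫ x in Θ, c x * |u x| ^ cexp n

/-- The Nehari manifold. -/
def Neh {n : ℕ} (Θ : Set (E n)) (a b c : E n → ℝ) (lam : ℝ) (u : E n → ℝ)
    (G : E n → E n) : Prop :=
  H01 Θ u G ∧ ¬ (u =ᵐ[volume] 0) ∧
    (∫ x in Θ, a x * ‖G x‖ ^ 2) - lam * (∫ x in Θ, b x * u x ^ 2) -
      (∫ x in Θ, c x * |u x| ^ cexp n) = 0

/-- The ground-state level. -/
noncomputable def level {n : ℕ} (Θ : Set (E n)) (a b c : E n → ℝ) (lam : ℝ) : ℝ :=
  sInf {r | ∃ u G, Neh Θ a b c lam u G ∧ r = J Θ a b c lam u G}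

/-- The first eigenvalue of `-div(a grad u) = lam b u`. -/
noncomputable def lam1 {n : ℕ} (Θ : Set (E n)) (a b : E n → ℝ) : ℝ :=
  sInf {r | ∃ u G, H01 Θ u G ∧ ¬ (u =ᵐ[volume] 0) ∧
    r = (∫ x in Θ, a x * ‖G x‖ ^ 2) / ∫ x in Θ, b x * u x ^ 2}

/-- The best Sobolev constant. -/
noncomputable def sobS (n : ℕ) : ℝ :=
  sInf {r | ∃ u : E n → ℝ, ContDiff ℝ ∞ u ∧ HasCompactSupport u ∧ u ≠ 0 ∧
    r = (∫ x, ‖gradient u x‖ ^ 2) / (∫ x, |u x| ^ cexp n) ^ (2 / cexp n)}

/-- The function `f = a^(n/2) / c^((n-2)/2)`. -/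
noncomputable def ff {n : ℕ} (a c : E n → ℝ) (x : E n) : ℝ :=
  a x ^ ((n : ℝ) / 2) / c x ^ (((n : ℝ) - 2) / 2)

/-- The threshold `κ`. -/
noncomputable def kap {n : ℕ} (Θ : Set (E n)) (a c : E n → ℝ) : ℝ :=
  sInf (ff a c '' closure Θ) * (1 / (n : ℝ) * sobS n ^ ((n : ℝ) / 2))

/-- The number `lam_{0,*}`, as an extended real number. -/
noncomputable def lam0 {n : ℕ} (Θ : Set (E n)) (a b c : E n → ℝ) : EReal :=
  ⨅ lam ∈ {lam : ℝ | lam < lam1 Θ a b ∧ level Θ a b c lam < kap Θ a c}, (lam : EReal)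

section

variable {n : ℕ}

lemma cexp_pos (hn : 3 ≤ n) : 0 < cexp n := by
  have : (3:ℝ) ≤ n := by exact_mod_cast hn
  unfold cexp
  apply div_pos <;> linarith

lemma gradient_continuous {u : E n → ℝ} (hu : ContDiff ℝ ∞ u) : Continuous (gradient u) := by
  have h2 : Continuous fun x => fderiv ℝ u x := hu.continuous_fderiv (by simp)
  unfold gradient
  exact (LinearIsometryEquiv.continuous _).comp h2

lemma gradient_compact {u : E n → ℝ} (hu : HasCompactSupport u) :
    HasCompactSupport (gradient u) := by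
  have h2 : HasCompactSupport fun x => fderiv ℝ u x := hu.fderiv (𝕜 := ℝ)
  exact h2.comp_left (g := fun L => (InnerProductSpace.toDual ℝ (E n)).symm L) (by simp)

lemma norm_gradient (u : E n → ℝ) (x : E n) : ‖gradient u x‖ = ‖fderiv ℝ u x‖ := by
  rw [gradient]; simp

/-- Positivity of the Sobolev constant. -/
lemma sobS_pos (hn : 3 ≤ n) : 0 < sobS n := by
  have hn3 : (3:ℝ) ≤ n := by exact_mod_cast hn
  set p' : ℝ≥0 := ⟨cexp n, (cexp_pos hn).le⟩ with hp'
  have hp'c : (p' : ℝ) = cexp n := rfl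
  set K : ℝ≥0 := eLpNormLESNormFDerivOfEqInnerConst (volume : Measure (E n)) (2:ℝ≥0) with hK
  have hfr : Module.finrank ℝ (E n) = n := by simp
  have key : ∀ u : E n → ℝ, ContDiff ℝ ∞ u → HasCompactSupport u → u ≠ 0 →
      1 / ((K:ℝ) ^ 2 + 1) ≤
        (∫ x, ‖gradient u x‖ ^ 2) / (∫ x, |u x| ^ cexp n) ^ (2 / cexp n) := by
    intro u hu hc hne
    have h1 := eLpNorm_le_eLpNorm_fderiv_of_eq_inner (μ := (volume : Measure (E n)))
      (u := u) (hu.of_le (by simp)) hc (p := 2) (p' := p') (by norm_num) (by rw [hfr]; omega)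
      (by
        rw [hfr, hp'c, cexp]
        push_cast
        have : (n:ℝ) - 2 ≠ 0 := by linarith
        have : (n:ℝ) ≠ 0 := by linarith
        field_simp)
    have hup : MemLp u p' volume := hu.continuous.memLp_of_hasCompactSupport hc
    have hg2 : MemLp (fderiv ℝ u) 2 volume :=
      (hu.continuous_fderiv (by simp)).memLp_of_hasCompactSupport (hc.fderiv (𝕜 := ℝ))
    have hp0 : (p' : ℝ≥0∞) ≠ 0 := by
      have : p' ≠ 0 := by
        intro h
        have h2 : (p' : ℝ) = 0 := by rw [h]; rfl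
        rw [hp'c] at h2
        exact (cexp_pos hn).ne' h2
      exact_mod_cast this
    -- the two norms
    have e1 : (∫ x, |u x| ^ cexp n) ^ (2 / cexp n) = (eLpNorm u p' volume).toReal ^ 2 := by
      rw [hup.eLpNorm_eq_integral_rpow_norm hp0 ENNReal.coe_ne_top]
      have hI : 0 ≤ ∫ x, ‖u x‖ ^ (cexp n) := integral_nonneg fun x => by positivity
      simp only [ENNReal.coe_toReal, hp'c]
      rw [ENNReal.toReal_ofReal (by positivity), ← Real.rpow_natCast, ← Real.rpow_mul hI]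
      simp only [Real.norm_eq_abs]
      congr 1
      push_cast
      field_simp
    have e2 : ∫ x, ‖gradient u x‖ ^ 2 = (eLpNorm (fderiv ℝ u) 2 volume).toReal ^ 2 := by
      simp_rw [norm_gradient]
      rw [hg2.eLpNorm_eq_integral_rpow_norm (by norm_num) (by norm_num)]
      simp only [ENNReal.toReal_ofNat, Real.rpow_ofNat]
      have hA : 0 ≤ ∫ x, ‖fderiv ℝ u x‖ ^ 2 := integral_nonneg fun x => by positivity
      rw [ENNReal.toReal_ofReal (by positivity), show ((2:ℝ)⁻¹) = 1 / 2 by norm_num,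
        ← Real.sqrt_eq_rpow, Real.sq_sqrt hA]
    have h2 : (eLpNorm u p' volume).toReal ≤ K * (eLpNorm (fderiv ℝ u) 2 volume).toReal := by
      have := ENNReal.toReal_mono (ENNReal.mul_ne_top ENNReal.coe_ne_top hg2.2.ne) h1
      rwa [ENNReal.toReal_mul, ENNReal.coe_toReal] at this
    have h3 : 0 < (eLpNorm u p' volume).toReal := by
      rw [ENNReal.toReal_pos_iff]
      refine ⟨?_, hup.2⟩
      rw [pos_iff_ne_zero, Ne, eLpNorm_eq_zero_iff hup.1 hp0]
      intro h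
      apply hne
      exact (hu.continuous.ae_eq_iff_eq volume continuous_const).1 h
    rw [e1, e2]
    set P := (eLpNorm u p' volume).toReal
    set D := (eLpNorm (fderiv ℝ u) 2 volume).toReal
    have hD : 0 ≤ D := ENNReal.toReal_nonneg
    rw [div_le_div_iff₀ (by positivity) (by positivity)]
    have h4 : P ^ 2 ≤ (K * D) ^ 2 := pow_le_pow_left₀ h3.le h2 2
    nlinarith [sq_nonneg D]
  -- nonempty
  let η : ContDiffBump (0 : E n) := ⟨1, 2, one_pos, one_lt_two⟩
  have hηne : (η : E n → ℝ) ≠ 0 := by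
    intro h
    have h1 := congrFun h 0
    rw [η.one_of_mem_closedBall (by simp [η])] at h1
    simp at h1
  have hpos : 0 < 1 / ((K:ℝ) ^ 2 + 1) := by positivity
  refine lt_of_lt_of_le hpos ?_
  apply le_csInf
  · exact ⟨_, η, η.contDiff, η.hasCompactSupport, hηne, rfl⟩
  · rintro r ⟨u, hu, hc, hne, rfl⟩
    exact key u hu hc hne

end

end Pool.Agent.R217.BN
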