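import Pool.Agent.R217.BN.Main

set_option autoImplicit false

open MeasureTheory Filter Topology
open scoped ContDiff ENNReal NNReal

namespace Pool.Agent.R217.BN

variable {n : ℕ}

lemma lam1_nonneg {A : ℝ} (hA : 0 ≤ A) :
    0 ≤ lam1 (Metric.ball (0 : E n) 1) (aa n A) (fun _ => 1) := by
  apply Real.sInf_nonneg
  rintro r ⟨u, G, -, -, rfl⟩
  apply div_nonneg
  · exact integral_nonneg fun x => mul_nonneg (aa_pos hA x).le (by positivity)
  · exact integral_nonneg fun x => by positivity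

theorem final (hn : 3 ≤ n) (M : ℝ) :
    ∃ a b c : E n → ℝ, ContDiff ℝ ∞ a ∧ ContDiff ℝ ∞ b ∧ ContDiff ℝ ∞ c ∧
      (∀ x, 0 < a x ∧ 0 < b x ∧ 0 < c x) ∧
      (∀ x ∈ closure (Metric.ball (0 : E n) 1),
        (∀ y ∈ closure (Metric.ball (0 : E n) 1), ff a c x ≤ ff a c y) →
          x ∈ frontier (Metric.ball (0 : E n) 1) ∧ gradient (ff a c) x ≠ 0) ∧
      lam0 (Metric.ball (0 : E n) 1) a b c ≤ ((-M : ℝ) : EReal) := by
  have hM0 : 0 < max M 1 := lt_of_lt_of_le one_pos (le_max_right _ _)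
  obtain ⟨A, hA, hlt⟩ := main hn (max M 1) hM0 ⟨0, by omega⟩
  refine ⟨aa n A, fun _ => 1, cc n A ⟨0, by omega⟩, aa_contDiff A, contDiff_const,
    cc_contDiff hA _, fun x => ⟨aa_pos hA x, one_pos, cc_pos hA _ x⟩, min_hyp hn hA _, ?_⟩
  have h1 : lam0 (Metric.ball (0 : E n) 1) (aa n A) (fun _ => 1) (cc n A ⟨0, by omega⟩) ≤
      ((-(max M 1) : ℝ) : EReal) := by
    apply iInf₂_le (-(max M 1))
    refine ⟨?_, hlt⟩
    have := lam1_nonneg (n := n) hA
    linarith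
  refine h1.trans ?_
  rw [EReal.coe_le_coe_iff]
  have := le_max_left M 1
  linarith

end Pool.Agent.R217.BN
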