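import Pool.Agent.R217.BN.Defs

set_option autoImplicit false

open MeasureTheory Filter Topology
open scoped ContDiff ENNReal NNReal

namespace Pool.Agent.R217.BN

variable {n : ℕ}

/-- The plateau cutoff. -/
noncomputable def chi (n : ℕ) : ContDiffBump (0 : E n) := ⟨1 / 4, 1 / 2, by norm_num, by norm_num⟩

/-- The test function. -/
noncomputable def phi (n : ℕ) : ContDiffBump (0 : E n) := ⟨1 / 2, 3 / 4, by norm_num, by norm_num⟩

/-- The coefficient `a`. -/
noncomputable def aa (n : ℕ) (A : ℝ) (x : E n) : ℝ := 1 + A * chi n x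

/-- The coefficient `c`. -/
noncomputable def cc (n : ℕ) (A : ℝ) (i : Fin n) (x : E n) : ℝ :=
  (aa n A x ^ ((n : ℝ) / 2) / Real.exp (x i)) ^ (2 / ((n : ℝ) - 2))

lemma aa_pos {A : ℝ} (hA : 0 ≤ A) (x : E n) : 0 < aa n A x := by
  have := (chi n).nonneg (x := x)
  unfold aa
  positivity

lemma aa_contDiff (A : ℝ) : ContDiff ℝ ∞ (aa n A) :=
  contDiff_const.add (contDiff_const.mul (chi n).contDiff)

lemma coord_contDiff (i : Fin n) : ContDiff ℝ ∞ (fun x : E n => x i) :=
  (EuclideanSpace.proj (𝕜 := ℝ) i : E n →L[ℝ] ℝ).contDiff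

lemma cc_pos {A : ℝ} (hA : 0 ≤ A) (i : Fin n) (x : E n) : 0 < cc n A i x := by
  have := aa_pos (n := n) hA x
  unfold cc
  positivity

lemma cc_contDiff {A : ℝ} (hA : 0 ≤ A) (i : Fin n) : ContDiff ℝ ∞ (cc n A i) := by
  unfold cc
  apply ContDiff.rpow_const_of_ne
  · apply ContDiff.div
    · exact (aa_contDiff A).rpow_const_of_ne fun x => (aa_pos hA x).ne'
    · exact Real.contDiff_exp.comp (coord_contDiff i)
    · intro x; exact (Real.exp_pos _).ne'
  · intro x
    have := aa_pos (n := n) hA x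
    positivity

lemma ff_eq (hn : 3 ≤ n) {A : ℝ} (hA : 0 ≤ A) (i : Fin n) (x : E n) :
    ff (aa n A) (cc n A i) x = Real.exp (x i) := by
  have hn3 : (3:ℝ) ≤ n := by exact_mod_cast hn
  have ha := aa_pos (n := n) hA x
  rw [ff, cc, ← Real.rpow_mul (by positivity)]
  have h2 : (n:ℝ) - 2 ≠ 0 := by linarith
  have : 2 / ((n : ℝ) - 2) * (((n : ℝ) - 2) / 2) = 1 := by field_simp
  rw [this, Real.rpow_one]
  field_simp

lemma norm_coord_le (x : E n) (i : Fin n) : |x i| ≤ ‖x‖ := by
  have := PiLp.norm_apply_le (p := 2) x i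
  simpa using this

/-- The hypothesis on the minimum points. -/
lemma min_hyp (hn : 3 ≤ n) {A : ℝ} (hA : 0 ≤ A) (i : Fin n) (x : E n)
    (_hx : x ∈ closure (Metric.ball (0 : E n) 1))
    (hmin : ∀ y ∈ closure (Metric.ball (0 : E n) 1),
      ff (aa n A) (cc n A i) x ≤ ff (aa n A) (cc n A i) y) :
    x ∈ frontier (Metric.ball (0 : E n) 1) ∧ gradient (ff (aa n A) (cc n A i)) x ≠ 0 := by
  have hff : ff (aa n A) (cc n A i) = fun x => Real.exp (x i) := by
    funext x; exact ff_eq hn hA i x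
  rw [closure_ball (0 : E n) one_ne_zero] at _hx hmin
  constructor
  · rw [frontier_ball (0 : E n) one_ne_zero, mem_sphere_zero_iff_norm]
    have h1 := hmin (-EuclideanSpace.single i 1) (by simp)
    rw [hff] at h1
    simp only [Real.exp_le_exp] at h1
    have h2 : x i ≤ -1 := by simpa using h1
    have h3 := norm_coord_le x i
    have h4 : 1 ≤ |x i| := by
      rw [abs_of_nonpos (by linarith)]; linarith
    rw [mem_closedBall_zero_iff] at _hx
    linarith
  · rw [hff]
    intro h0
    have h1 : HasFDerivAt (fun x : E n => Real.exp (x i))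
        (Real.exp (x i) • (EuclideanSpace.proj (𝕜 := ℝ) i : E n →L[ℝ] ℝ)) x := by
      have e := (EuclideanSpace.proj (𝕜 := ℝ) i : E n →L[ℝ] ℝ).hasFDerivAt (x := x)
      exact HasFDerivAt.exp e
    have h2 : fderiv ℝ (fun x : E n => Real.exp (x i)) x = 0 := by
      rw [← norm_eq_zero, ← norm_gradient, h0, norm_zero]
    rw [h1.fderiv] at h2
    have h3 := congrArg (fun L : E n →L[ℝ] ℝ => L (EuclideanSpace.single i 1)) h2
    simp at h3

/-- The gradient of the test function lives where `a = 1`. -/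
lemma aa_grad (A : ℝ) (x : E n) :
    aa n A x * ‖gradient (phi n) x‖ ^ 2 = ‖gradient (phi n) x‖ ^ 2 := by
  rcases lt_or_ge ‖x‖ (1 / 2) with h | h
  · have h1 : (phi n : E n → ℝ) =ᶠ[𝓝 x] fun _ => (1:ℝ) := by
      have : Metric.ball (0 : E n) (1/2) ∈ 𝓝 x :=
        Metric.isOpen_ball.mem_nhds (by simpa using h)
      filter_upwards [this] with y hy
      apply (phi n).one_of_mem_closedBall
      exact Metric.ball_subset_closedBall hy
    have h2 : ‖gradient (phi n) x‖ = 0 := by
      rw [norm_gradient, h1.fderiv_eq]; simp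
    rw [h2]; simp
  · have h1 : chi n x = 0 := by
      apply (chi n).zero_of_le_dist
      simpa [chi] using h
    rw [aa, h1]; simp

lemma phi_ne (n : ℕ) : ¬ ((phi n : E n → ℝ) =ᵐ[volume] 0) := by
  intro h
  have h1 := ((phi n).continuous.ae_eq_iff_eq volume continuous_const).1 h
  have h2 := congrFun h1 0
  rw [(phi n).one_of_mem_closedBall (by simp [phi])] at h2
  exact one_ne_zero h2

lemma phi_tsupport (n : ℕ) : tsupport (phi n) ⊆ Metric.ball (0 : E n) 1 := by
  rw [(phi n).tsupport_eq]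
  apply Metric.closedBall_subset_ball
  change (3/4 : ℝ) < 1
  norm_num

/-- The multiples of the test function. -/
lemma phi_H01 (t : ℝ) :
    H01 (Metric.ball (0 : E n) 1) (fun x => t * phi n x) (gradient fun x => t * phi n x) := by
  have h1 : ContDiff ℝ ∞ (fun x => t * phi n x) := contDiff_const.mul (phi n).contDiff
  have h2 : HasCompactSupport (fun x => t * phi n x) := (phi n).hasCompactSupport.mul_left
  refine ⟨h1.continuous.memLp_of_hasCompactSupport h2,
    (gradient_continuous h1).memLp_of_hasCompactSupport (gradient_compact h2),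
    fun _ => fun x => t * phi n x, fun _ => ⟨h1, h2, ?_⟩, ?_, ?_⟩
  · refine (tsupport_mul_subset_right (f := fun _ => t) (g := phi n)).trans (phi_tsupport n)
  · simp
  · simp

lemma gradient_smul (t : ℝ) (x : E n) :
    ‖gradient (fun x => t * phi n x) x‖ ^ 2 = t ^ 2 * ‖gradient (phi n) x‖ ^ 2 := by
  rw [norm_gradient, norm_gradient]
  have h : DifferentiableAt ℝ (phi n : E n → ℝ) x :=
    ((phi n).contDiff (n := 1)).differentiable (by simp) x
  rw [fderiv_const_mul h, norm_smul, mul_pow, Real.norm_eq_abs, sq_abs]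

/-- The minimum of `f` is at least `exp (-1)`. -/
lemma min_ge (hn : 3 ≤ n) {A : ℝ} (hA : 0 ≤ A) (i : Fin n) :
    Real.exp (-1) ≤ sInf (ff (aa n A) (cc n A i) '' closure (Metric.ball (0 : E n) 1)) := by
  rw [closure_ball (0 : E n) one_ne_zero]
  apply le_csInf
  · exact ⟨_, 0, by simp, rfl⟩
  · rintro r ⟨x, hx, rfl⟩
    rw [ff_eq hn hA, Real.exp_le_exp]
    rw [mem_closedBall_zero_iff] at hx
    have := abs_le.1 (norm_coord_le x i)
    linarith

/-- The numerical estimate. -/
lemma est {N Q v s C : ℝ} (hN : 3 ≤ N) (hQ0 : 0 < Q) (hv0 : 0 < v) (hs0 : 0 < s)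
    (hC : ((1 + Real.exp 2 * (Q * (Q / v) ^ ((N - 2) / 2)) / s) ^ (N / 2) / Real.exp 1) ^
      (2 / (N - 2)) * v ≤ C) :
    1 / N * (Q * (Q / C) ^ ((N - 2) / 2)) < Real.exp (-1) * (1 / N * s) := by
  set e := (N - 2) / 2 with he
  have he0 : 0 < e := by rw [he]; linarith
  have hW0 : 0 < Q * (Q / v) ^ e := by positivity
  obtain ⟨W, hW⟩ : ∃ W, W = Q * (Q / v) ^ e := ⟨_, rfl⟩
  rw [← hW] at hC hW0
  obtain ⟨A, hA⟩ : ∃ A, A = Real.exp 2 * W / s := ⟨_, rfl⟩
  rw [← hA] at hC
  have hA0 : 0 ≤ A := by rw [hA]; positivity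
  obtain ⟨c0, hc0⟩ : ∃ c0, c0 = ((1 + A) ^ (N / 2) / Real.exp 1) ^ (2 / (N - 2)) := ⟨_, rfl⟩
  rw [← hc0] at hC
  have hc00 : 0 < c0 := by rw [hc0]; positivity
  have h1 : (Q / C) ^ e ≤ (Q / v) ^ e * (Real.exp 1 / (1 + A)) := by
    have h2 : (Q / C) ^ e ≤ (Q / (c0 * v)) ^ e := by
      apply Real.rpow_le_rpow _ _ he0.le
      · apply div_nonneg hQ0.le
        exact le_trans (by positivity) hC
      · apply div_le_div_of_nonneg_left hQ0.le (by positivity) hC
    have h3 : (Q / (c0 * v)) ^ e = (Q / v) ^ e * (c0 ^ e)⁻¹ := by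
      have : Q / (c0 * v) = (Q / v) * c0⁻¹ := by field_simp
      rw [this, Real.mul_rpow (by positivity) (by positivity), Real.inv_rpow hc00.le]
    have h4 : c0 ^ e = (1 + A) ^ (N / 2) / Real.exp 1 := by
      rw [hc0, ← Real.rpow_mul (by positivity)]
      have : 2 / (N - 2) * e = 1 := by
        rw [he]
        have : N - 2 ≠ 0 := by linarith
        field_simp
      rw [this, Real.rpow_one]
    rw [h3, h4, inv_div] at h2
    refine h2.trans ?_
    apply mul_le_mul_of_nonneg_left _ (by positivity)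
    apply div_le_div_of_nonneg_left (Real.exp_pos _).le (by positivity)
    calc (1 + A) = (1 + A) ^ (1:ℝ) := (Real.rpow_one _).symm
      _ ≤ _ := Real.rpow_le_rpow_of_exponent_le (by linarith) (by linarith)
  have hn0 : 0 < 1 / N := by positivity
  have h5 : Q * (Q / C) ^ e ≤ W * (Real.exp 1 / (1 + A)) := by
    rw [hW, mul_assoc]
    exact mul_le_mul_of_nonneg_left h1 hQ0.le
  have h6 : W * (Real.exp 1 / (1 + A)) < Real.exp (-1) * s := by
    rw [mul_div_assoc', div_lt_iff₀ (by positivity)]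
    have h7 : Real.exp (-1) * s * (1 + A) = Real.exp (-1) * s + Real.exp 1 * W := by
      rw [hA]
      have h8 : Real.exp (-1) * Real.exp 2 = Real.exp 1 := by
        rw [← Real.exp_add]; norm_num
      have h10 : s * (Real.exp 2 * W / s) = Real.exp 2 * W := by field_simp
      linear_combination W * h8 + Real.exp (-1) * h10
    rw [h7]
    have : 0 < Real.exp (-1) * s := by positivity
    linarith
  have h9 : Q * (Q / C) ^ e < Real.exp (-1) * s := lt_of_le_of_lt h5 h6
  calc 1 / N * (Q * (Q / C) ^ e) < 1 / N * (Real.exp (-1) * s) :=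
        mul_lt_mul_of_pos_left h9 hn0
    _ = _ := by ring

/-- Lower bound for the integral of `c`. -/
lemma C_ge (hn : 3 ≤ n) {A : ℝ} (hA0 : 0 ≤ A) (i : Fin n) :
    ((1 + A) ^ ((n : ℝ) / 2) / Real.exp 1) ^ (2 / ((n : ℝ) - 2)) *
      (volume (Metric.ball (0 : E n) (1/4))).toReal ≤
      ∫ x in Metric.ball (0 : E n) 1, cc n A i x * |phi n x| ^ cexp n := by
  have hn3 : (3:ℝ) ≤ n := by exact_mod_cast hn
  have hp := cexp_pos hn
  have hφc : Continuous (phi n : E n → ℝ) := (phi n).continuous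
  set c0 := ((1 + A) ^ ((n : ℝ) / 2) / Real.exp 1) ^ (2 / ((n : ℝ) - 2)) with hc0
  have hcont : Continuous fun x => cc n A i x * |phi n x| ^ cexp n := by
    apply (cc_contDiff hA0 i).continuous.mul
    exact hφc.abs.rpow_const fun x => Or.inr hp.le
  have hint : Integrable fun x => cc n A i x * |phi n x| ^ cexp n := by
    apply hcont.integrable_of_hasCompactSupport
    apply (phi n).hasCompactSupport.mono
    intro x hx
    rw [Function.mem_support] at hx ⊢
    intro h
    apply hx
    simp only [h, abs_zero, Real.zero_rpow hp.ne', mul_zero]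
  have h1 : ∫ x in Metric.ball (0 : E n) (1/4), c0 ≤
      ∫ x in Metric.ball (0 : E n) (1/4), cc n A i x * |phi n x| ^ cexp n := by
    apply setIntegral_mono_on
    · exact integrableOn_const (measure_ball_lt_top).ne
    · exact hint.integrableOn
    · exact measurableSet_ball
    · intro x hx
      have hx' : ‖x‖ < 1/4 := by simpa using hx
      have e1 : phi n x = 1 := by
        apply (phi n).one_of_mem_closedBall
        rw [mem_closedBall_zero_iff]
        change ‖x‖ ≤ 1/2
        linarith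
      have e2 : chi n x = 1 := by
        apply (chi n).one_of_mem_closedBall
        rw [mem_closedBall_zero_iff]
        change ‖x‖ ≤ 1/4
        linarith
      rw [e1, abs_one, Real.one_rpow, mul_one, hc0, cc, aa, e2, mul_one]
      apply Real.rpow_le_rpow (by positivity) _ (by
        apply div_nonneg (by norm_num); linarith)
      apply div_le_div_of_nonneg_left (by positivity) (Real.exp_pos _)
      rw [Real.exp_le_exp]
      have := abs_le.1 (norm_coord_le x i)
      linarith
  rw [setIntegral_const, smul_eq_mul, mul_comm] at h1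
  refine h1.trans ?_
  apply setIntegral_mono_set hint.integrableOn
  · exact Eventually.of_forall fun x => mul_nonneg (cc_pos hA0 i x).le (by positivity)
  · exact (Metric.ball_subset_ball (by norm_num)).eventuallyLE

theorem main (hn : 3 ≤ n) (M : ℝ) (hM : 0 < M) (i : Fin n) :
    ∃ A : ℝ, 0 ≤ A ∧
      level (Metric.ball (0 : E n) 1) (aa n A) (fun _ => 1) (cc n A i) (-M) <
        kap (Metric.ball (0 : E n) 1) (aa n A) (cc n A i) := by
  have hn3 : (3:ℝ) ≤ n := by exact_mod_cast hn
  have hS := sobS_pos hn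
  have hp := cexp_pos hn
  set Θ := Metric.ball (0 : E n) 1 with hΘ
  obtain ⟨P, hP⟩ : ∃ P, P = ∫ x in Θ, ‖gradient (phi n) x‖ ^ 2 := ⟨_, rfl⟩
  obtain ⟨R, hR⟩ : ∃ R, R = ∫ x in Θ, phi n x ^ 2 := ⟨_, rfl⟩
  have hP0 : 0 ≤ P := by rw [hP]; exact integral_nonneg fun x => by positivity
  have hφc : Continuous (phi n : E n → ℝ) := (phi n).continuous
  have hR0 : 0 < R := by
    rw [hR, setIntegral_eq_integral_of_forall_compl_eq_zero]
    · rw [integral_pos_iff_support_of_nonneg (fun x => by positivity)]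
      · rw [pos_iff_ne_zero]
        intro hz
        apply phi_ne n
        rw [Filter.EventuallyEq, ae_iff]
        refine measure_mono_null ?_ hz
        intro x hx
        exact pow_ne_zero 2 hx
      · apply (hφc.pow 2).integrable_of_hasCompactSupport
        apply (phi n).hasCompactSupport.mono
        intro x hx
        rw [Function.mem_support] at hx ⊢
        intro h
        apply hx
        simp [h]
    · intro x hx
      have : x ∉ tsupport (phi n) := fun h => hx (phi_tsupport n h)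
      simp [image_eq_zero_of_notMem_tsupport this]
  obtain ⟨Q, hQ⟩ : ∃ Q, Q = P + M * R := ⟨_, rfl⟩
  have hQ0 : 0 < Q := by rw [hQ]; positivity
  obtain ⟨v, hv⟩ : ∃ v, v = (volume (Metric.ball (0 : E n) (1/4))).toReal := ⟨_, rfl⟩
  have hv0 : 0 < v := by
    rw [hv, ENNReal.toReal_pos_iff]
    exact ⟨Metric.measure_ball_pos _ _ (by norm_num), measure_ball_lt_top⟩
  obtain ⟨s, hs⟩ : ∃ s, s = sobS n ^ ((n : ℝ) / 2) := ⟨_, rfl⟩
  have hs0 : 0 < s := by rw [hs]; exact Real.rpow_pos_of_pos hS _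
  obtain ⟨A, hA⟩ : ∃ A, A = Real.exp 2 * (Q * (Q / v) ^ (((n:ℝ) - 2) / 2)) / s := ⟨_, rfl⟩
  have hA0 : 0 ≤ A := by rw [hA]; positivity
  refine ⟨A, hA0, ?_⟩
  obtain ⟨C, hC⟩ : ∃ C, C = ∫ x in Θ, cc n A i x * |phi n x| ^ cexp n := ⟨_, rfl⟩
  have hCge := C_ge hn hA0 i
  rw [← hΘ, ← hC, ← hv] at hCge
  have hC0 : 0 < C := lt_of_lt_of_le (by positivity) hCge
  have hest : 1 / (n:ℝ) * (Q * (Q / C) ^ (((n:ℝ) - 2) / 2)) <
      Real.exp (-1) * (1 / (n:ℝ) * s) := by
    apply est hn3 hQ0 hv0 hs0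
    rw [← hA]
    exact hCge
  obtain ⟨e, he⟩ : ∃ e, e = ((n : ℝ) - 2) / 2 := ⟨_, rfl⟩
  have he0 : 0 < e := by rw [he]; linarith
  rw [← he] at hest
  -- the scaled test function
  have hexp : cexp n = 2 + 2 / e := by
    rw [cexp, he]
    have : (n:ℝ) - 2 ≠ 0 := by linarith
    field_simp
    ring
  obtain ⟨t, ht⟩ : ∃ t, t = (Q / C) ^ (e / 2) := ⟨_, rfl⟩
  have ht0 : 0 < t := by rw [ht]; positivity
  have ht2 : t ^ 2 = (Q / C) ^ e := by
    rw [ht, ← Real.rpow_natCast, ← Real.rpow_mul (by positivity)]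
    congr 1; push_cast; ring
  have htp : t ^ cexp n * C = t ^ 2 * Q := by
    rw [hexp, Real.rpow_add ht0, Real.rpow_two]
    have : t ^ (2 / e) = Q / C := by
      rw [ht, ← Real.rpow_mul (by positivity)]
      have : e / 2 * (2 / e) = 1 := by field_simp
      rw [this, Real.rpow_one]
    rw [this]; field_simp
  have I1 : ∫ x in Θ, aa n A x * ‖gradient (fun x => t * phi n x) x‖ ^ 2 = t ^ 2 * P := by
    rw [hP, ← integral_const_mul]
    congr 1; funext x
    rw [gradient_smul]
    have := aa_grad (n := n) A x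
    calc aa n A x * (t ^ 2 * ‖gradient (phi n) x‖ ^ 2) =
        t ^ 2 * (aa n A x * ‖gradient (phi n) x‖ ^ 2) := by ring
      _ = _ := by rw [this]
  have I2 : ∫ x in Θ, (1:ℝ) * (t * phi n x) ^ 2 = t ^ 2 * R := by
    rw [hR, ← integral_const_mul]
    congr 1; funext x
    ring
  have I3 : ∫ x in Θ, cc n A i x * |t * phi n x| ^ cexp n = t ^ 2 * Q := by
    rw [← htp, hC, ← integral_const_mul]
    congr 1; funext x
    rw [abs_mul, abs_of_pos ht0, Real.mul_rpow ht0.le (abs_nonneg _)]
    ring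
  have hneh : Neh Θ (aa n A) (fun _ => 1) (cc n A i) (-M) (fun x => t * phi n x)
      (gradient fun x => t * phi n x) := by
    refine ⟨phi_H01 t, ?_, ?_⟩
    · intro h
      apply phi_ne n
      filter_upwards [h] with x hx
      simp only [Pi.zero_apply, mul_eq_zero, ht0.ne', false_or] at hx
      exact hx
    · rw [I1, I2, I3, hQ]; ring
  have hJ : J Θ (aa n A) (fun _ => 1) (cc n A i) (-M) (fun x => t * phi n x)
      (gradient fun x => t * phi n x) = 1 / (n:ℝ) * (Q * (Q / C) ^ e) := by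
    rw [J, I1, I2, I3, ← ht2]
    have h1 : 1 / cexp n = 1 / 2 - 1 / (n:ℝ) := by
      rw [cexp]
      have : (n:ℝ) ≠ 0 := by linarith
      have : (n:ℝ) - 2 ≠ 0 := by linarith
      field_simp
    rw [h1, hQ]; ring
  have hlev : level Θ (aa n A) (fun _ => 1) (cc n A i) (-M) ≤ 1 / (n:ℝ) * (Q * (Q / C) ^ e) := by
    rw [← hJ]
    apply csInf_le
    · refine ⟨0, ?_⟩
      rintro r ⟨u, G, hN, rfl⟩
      obtain ⟨-, -, h1⟩ := hN
      rw [J]
      have h2 : 0 ≤ ∫ x in Θ, cc n A i x * |u x| ^ cexp n :=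
        integral_nonneg fun x => mul_nonneg (cc_pos hA0 i x).le (by positivity)
      have h3 : 1 / cexp n ≤ 1 / 2 := by
        rw [cexp, one_div_div, div_le_div_iff₀ (by linarith) (by norm_num)]
        linarith
      nlinarith
    · exact ⟨_, _, hneh, rfl⟩
  refine lt_of_le_of_lt hlev ?_
  have hmin := min_ge (n := n) hn hA0 i
  have hkap : Real.exp (-1) * (1 / (n:ℝ) * s) ≤ kap Θ (aa n A) (cc n A i) := by
    rw [kap, ← hs]
    apply mul_le_mul_of_nonneg_right hmin
    positivity
  exact lt_of_lt_of_le hest hkap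

end Pool.Agent.R217.BN
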